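import Pool.Agent.Q204.ACH.Geo

open MeasureTheory Set Filter Topology

namespace Pool.Agent.Q204.ACH

def Anti {n : ℕ} (S : Set (E n)) : Prop := ∀ x ∈ S, ∀ y ∈ S, (∀ i, x i ≤ y i) → x = y

def Q {m : ℕ} (x : E (m + 1)) : E m := WithLp.toLp 2 (fun k => x k.succ - x 0)

theorem Q_apply {m : ℕ} (x : E (m + 1)) (k : Fin m) : Q x k = x k.succ - x 0 := rfl

theorem Q_cont {m : ℕ} : Continuous (Q (m := m)) := by
  refine (PiLp.continuous_toLp 2 _).comp (continuous_pi fun k => ?_)
  exact ((EuclideanSpace.proj (𝕜 := ℝ) k.succ).continuous).sub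
    ((EuclideanSpace.proj (𝕜 := ℝ) (0 : Fin (m + 1))).continuous)

theorem anti_bound {m : ℕ} {S : Set (E (m + 1))} (hS : Anti S) {x y : E (m + 1)} (hx : x ∈ S)
    (hy : y ∈ S) : dist x y ≤ ((2 * (m + 1) : ℕ) : ℝ) * dist (Q x) (Q y) := by
  by_cases hxy : x = y
  · subst hxy
    simp
  set e : ℝ := dist (Q x) (Q y) with he
  have hcoord : ∀ k : Fin m, |(x k.succ - y k.succ) - (x 0 - y 0)| ≤ e := by
    intro k
    have h1 : dist (Q x k) (Q y k) ≤ dist (Q x) (Q y) := by
      have := PiLp.norm_apply_le (p := 2) (Q x - Q y) k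
      simpa [dist_eq_norm] using this
    rw [Real.dist_eq, Q_apply, Q_apply] at h1
    have h2 : x k.succ - x 0 - (y k.succ - y 0) = (x k.succ - y k.succ) - (x 0 - y 0) := by ring
    rwa [h2] at h1
  have he0 : 0 ≤ e := dist_nonneg
  have h0 : |x 0 - y 0| ≤ e := by
    have hA : ∃ i, y i < x i := by
      by_contra hcon
      push Not at hcon
      exact hxy (hS x hx y hy hcon)
    have hB : ∃ i, x i < y i := by
      by_contra hcon
      push Not at hcon
      exact hxy (hS y hy x hx hcon).symm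
    obtain ⟨i, hi⟩ := hA
    obtain ⟨i', hi'⟩ := hB
    rcases le_total (x 0) (y 0) with h | h
    · rw [abs_of_nonpos (by linarith)]
      rcases Fin.eq_zero_or_eq_succ i with rfl | ⟨k, rfl⟩
      · linarith
      · have := (abs_le.1 (hcoord k)).2
        linarith
    · rw [abs_of_nonneg (by linarith)]
      rcases Fin.eq_zero_or_eq_succ i' with rfl | ⟨k, rfl⟩
      · linarith
      · have := (abs_le.1 (hcoord k)).1
        linarith
  have hall : ∀ i, |x i - y i| ≤ 2 * e := by
    intro i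
    rcases Fin.eq_zero_or_eq_succ i with rfl | ⟨k, rfl⟩
    · linarith
    · have h1 := hcoord k
      have h2 := abs_le.1 h1
      have h3 := abs_le.1 h0
      rw [abs_le]
      constructor <;> linarith [h2.1, h2.2, h3.1, h3.2]
  rw [EuclideanSpace.dist_eq]
  apply Real.sqrt_le_iff.2
  refine ⟨by positivity, ?_⟩
  have h1 : ∑ i, dist (x i) (y i) ^ 2 ≤ ∑ _i : Fin (m + 1), (2 * e) ^ 2 := by
    refine Finset.sum_le_sum fun i _ => ?_
    rw [Real.dist_eq]
    exact pow_le_pow_left₀ (abs_nonneg _) (hall i) 2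
  refine h1.trans ?_
  simp only [Finset.sum_const, Finset.card_univ, Fintype.card_fin, nsmul_eq_mul]
  push_cast
  have hm : (0 : ℝ) ≤ m := Nat.cast_nonneg m
  nlinarith [mul_nonneg hm (mul_nonneg he0 he0), mul_nonneg (mul_nonneg hm hm) (mul_nonneg he0 he0)]

theorem anti_fin {m : ℕ} {S : Set (E (m + 1))} (hS : Anti S) (hc : S ⊆ cube (m + 1)) :
    μH[(m : ℝ)] S < ⊤ := by
  have hanti : AntilipschitzWith ((2 * (m + 1) : ℕ) : NNReal) (fun x : S => Q (x : E (m + 1))) := by
    refine AntilipschitzWith.of_le_mul_dist fun x y => ?_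
    have := anti_bound hS x.2 y.2
    simpa [Subtype.dist_eq] using this
  have h1 := hanti.le_hausdorffMeasure_image (d := (m : ℝ)) (Nat.cast_nonneg m) univ
  have h2 : μH[(m : ℝ)] S = μH[(m : ℝ)] (univ : Set S) := by
    rw [← (isometry_subtype_coe (s := S)).hausdorffMeasure_image (Or.inl (Nat.cast_nonneg m))]
    simp
  rw [h2]
  refine lt_of_le_of_lt h1 ?_
  refine ENNReal.mul_lt_top ?_ ?_
  · exact ENNReal.rpow_lt_top_of_nonneg (Nat.cast_nonneg m) ENNReal.coe_ne_top
  · have h3 : (fun x : S => Q (x : E (m + 1))) '' univ ⊆ Q '' cube (m + 1) := by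
      rintro _ ⟨x, _, rfl⟩
      exact ⟨x, hc x.2, rfl⟩
    exact lt_of_le_of_lt (measure_mono h3) ((cube_compact (m + 1)).image Q_cont).measure_lt_top

theorem slice_null {m : ℕ} (hm : 1 ≤ m) {S : Set (E (m + 1))} (hS : Anti S) (t : ℝ) :
    μH[(m : ℝ)] (S ∩ {x | x 0 = t}) = 0 := by
  have h1 : S ∩ {x | x 0 = t} = ins 0 t '' {z : E m | ins 0 t z ∈ S} := by
    ext x
    constructor
    · rintro ⟨hx, hx0⟩
      have h2 : ins 0 t (drop 0 x) = x := by
        have := ins_drop 0 x
        rw [← hx0]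
        exact this
      exact ⟨drop 0 x, by rw [mem_ofPred_eq, h2]; exact hx, h2⟩
    · rintro ⟨z, hz, rfl⟩
      exact ⟨hz, ins_same 0 t z⟩
  rw [h1, (ins_isometry 0 t).hausdorffMeasure_image (Or.inl (Nat.cast_nonneg m))]
  have : Nonempty (Fin m) := ⟨⟨0, hm⟩⟩
  have h2 : IsAntichain (· ≤ ·) {z : Fin m → ℝ | ins 0 t (WithLp.toLp 2 z) ∈ S} := by
    intro z hz w hw hne hle
    apply hne
    have h3 := hS _ hz _ hw (by
      intro i
      rcases Fin.eq_self_or_eq_succAbove 0 i with rfl | ⟨k, rfl⟩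
      · rw [ins_same, ins_same]
      · rw [ins_succAbove, ins_succAbove]
        exact hle k)
    have h4 := (ins_isometry 0 t).injective h3
    exact (WithLp.toLp_injective 2) h4
  have h3 := h2.volume_eq_zero
  exact null_of h3

theorem cut_anti {m : ℕ} (hm : 1 ≤ m) {S : Set (E (m + 1))} (hS : Anti S) (hc : S ⊆ cube (m + 1))
    (hSm : MeasurableSet S) (c : ENNReal) (hcS : c ≤ μH[(m : ℝ)] S) :
    ∃ S' ⊆ S, MeasurableSet S' ∧ μH[(m : ℝ)] S' = c := by
  have hfin := anti_fin hS hc
  have : IsFiniteMeasure ((μH[(m : ℝ)] : Measure (E (m + 1))).restrict S) :=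
    ⟨by rw [Measure.restrict_apply_univ]; exact hfin⟩
  have hmeas : Measurable (fun x : E (m + 1) => x 0) :=
    (EuclideanSpace.proj (𝕜 := ℝ) (0 : Fin (m + 1))).continuous.measurable
  set ρ : Measure ℝ := ((μH[(m : ℝ)] : Measure (E (m + 1))).restrict S).map (fun x => x 0) with hρ
  have hap : ∀ s : Set ℝ, MeasurableSet s → ρ s = μH[(m : ℝ)] (S ∩ {x | x 0 ∈ s}) := by
    intro s hs
    rw [hρ, Measure.map_apply hmeas hs, Measure.restrict_apply (hmeas hs), inter_comm]
    rfl
  obtain ⟨t, ht⟩ := cut ρ (fun x => by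
      rw [hap _ (measurableSet_singleton x)]
      exact slice_null hm hS x) (by
      rw [hap _ measurableSet_Iic]
      have : S ∩ {x | x 0 ∈ Iic (-1 : ℝ)} = ∅ := by
        ext x
        simp only [mem_inter_iff, mem_ofPred_eq, mem_Iic, mem_empty_iff_false, iff_false, not_and,
          not_le]
        intro hx
        have := (hc hx 0).1
        linarith
      rw [this]; simp) (by
      rw [hap _ measurableSet_Iic, hap _ MeasurableSet.univ]
      congr 1
      ext x
      simp only [mem_inter_iff, mem_ofPred_eq, mem_Iic, mem_univ, and_true, and_iff_left_iff_imp]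
      intro hx
      exact (hc hx 0).2) c (by
      rw [hap _ MeasurableSet.univ]
      simpa using hcS)
  refine ⟨S ∩ {x | x 0 ∈ Iic t}, inter_subset_left, hSm.inter (hmeas measurableSet_Iic), ?_⟩
  rw [← hap _ measurableSet_Iic, ht]

end Pool.Agent.Q204.ACH
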