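import Pool.Agent.Q204.ACH.Sing

open MeasureTheory Set Filter Topology

namespace Pool.Agent.Q204.ACH

abbrev E (n : ℕ) := EuclideanSpace ℝ (Fin n)

def cube (n : ℕ) : Set (E n) := {x | ∀ i, x i ∈ Icc (0 : ℝ) 1}

def ins {m : ℕ} (j : Fin (m + 1)) (a : ℝ) (z : E m) : E (m + 1) :=
  WithLp.toLp 2 (Fin.insertNth (α := fun _ => ℝ) j a z.ofLp)

def drop {m : ℕ} (j : Fin (m + 1)) (x : E (m + 1)) : E m :=
  WithLp.toLp 2 (fun i => x (j.succAbove i))

theorem ins_same {m : ℕ} (j : Fin (m + 1)) (a : ℝ) (z : E m) : ins j a z j = a := by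
  simp [ins]

theorem ins_succAbove {m : ℕ} (j : Fin (m + 1)) (a : ℝ) (z : E m) (i : Fin m) :
    ins j a z (j.succAbove i) = z i := by
  simp [ins]

theorem drop_apply {m : ℕ} (j : Fin (m + 1)) (x : E (m + 1)) (i : Fin m) :
    drop j x i = x (j.succAbove i) := rfl

theorem ins_isometry {m : ℕ} (j : Fin (m + 1)) (a : ℝ) : Isometry (ins (m := m) j a) := by
  refine Isometry.of_dist_eq fun z w => ?_
  rw [EuclideanSpace.dist_eq, EuclideanSpace.dist_eq, Fin.sum_univ_succAbove _ j]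
  simp [ins_same, ins_succAbove]

theorem drop_lip {m : ℕ} (j : Fin (m + 1)) : LipschitzWith 1 (drop (m := m) j) := by
  refine LipschitzWith.of_dist_le_mul fun z w => ?_
  rw [EuclideanSpace.dist_eq, EuclideanSpace.dist_eq, Fin.sum_univ_succAbove _ j]
  simp only [NNReal.coe_one, one_mul, drop_apply]
  apply Real.sqrt_le_sqrt
  have : 0 ≤ dist (z j) (w j) ^ 2 := by positivity
  linarith

theorem ins_drop {m : ℕ} (j : Fin (m + 1)) (x : E (m + 1)) : ins j (x j) (drop j x) = x := by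
  ext i
  rcases Fin.eq_self_or_eq_succAbove j i with rfl | ⟨k, rfl⟩
  · exact ins_same _ _ _
  · rw [ins_succAbove, drop_apply]

instance haarE (m : ℕ) : (μH[(m : ℝ)] : Measure (E m)).IsAddHaarMeasure := by
  have := isAddHaarMeasure_hausdorffMeasure (E := E m)
  simpa using this

theorem cube_compact (m : ℕ) : IsCompact (cube m) := by
  have h : cube m = (WithLp.toLp 2) '' (Set.pi univ (fun _ : Fin m => Icc (0 : ℝ) 1)) := by
    ext x
    constructor
    · intro hx
      exact ⟨x.ofLp, fun i _ => hx i, rfl⟩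
    · rintro ⟨y, hy, rfl⟩ i
      exact hy i (mem_univ _)
  rw [h]
  exact (isCompact_univ_pi fun _ => isCompact_Icc).image (PiLp.continuous_toLp 2 _)

theorem cube_fin (m : ℕ) : μH[(m : ℝ)] (cube m) < ⊤ := (cube_compact m).measure_lt_top

theorem cube_pos (m : ℕ) : 0 < μH[(m : ℝ)] (cube m) := by
  have ho : IsOpen {x : E m | ∀ i, x i ∈ Ioo (0 : ℝ) 1} := by
    have : {x : E m | ∀ i, x i ∈ Ioo (0 : ℝ) 1} = ⋂ i, (fun x : E m => x i) ⁻¹' Ioo 0 1 := by
      ext x; simp
    rw [this]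
    refine isOpen_iInter_of_finite fun i => isOpen_Ioo.preimage ?_
    exact EuclideanSpace.proj (𝕜 := ℝ) i |>.continuous
  have hne : {x : E m | ∀ i, x i ∈ Ioo (0 : ℝ) 1}.Nonempty :=
    ⟨WithLp.toLp 2 (fun _ => 1 / 2), fun i => by norm_num⟩
  refine lt_of_lt_of_le (ho.measure_pos _ hne) (measure_mono fun x hx i => Ioo_subset_Icc_self (hx i))

/-- Lebesgue-null sets of coordinates are null for the Hausdorff measure. -/
theorem null_of {m : ℕ} {N : Set (Fin m → ℝ)} (h : volume N = 0) :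
    μH[(m : ℝ)] {z : E m | z.ofLp ∈ N} = 0 := by
  have h1 : (volume : Measure (E m)) {z : E m | z.ofLp ∈ N} = 0 :=
    (PiLp.volume_preserving_ofLp (Fin m)).quasiMeasurePreserving.preimage_null h
  exact (Measure.absolutelyContinuous_isAddHaarMeasure _ _) h1

end Pool.Agent.Q204.ACH
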