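import Pool.Agent.Q204.ACH.Anti

open MeasureTheory Set Filter Topology

namespace Pool.Agent.Q204.ACH

section
variable {m : ℕ} (Φ : Fin (m + 1) → ℝ → ℝ) (A : Fin (m + 1) → Set ℝ)

def T (j : Fin (m + 1)) : Set (Fin (m + 1) → ℝ) :=
  {t | ∑ i, t i = 0 ∧ t j ∉ A j ∧ ∀ i, i ≠ j → t i ∈ A i}

def emb (t : Fin (m + 1) → ℝ) : E (m + 1) := WithLp.toLp 2 (fun i => Φ i (t i))

def SS (j : Fin (m + 1)) : Set (E (m + 1)) := emb Φ '' T A j

variable {Φ A}

theorem emb_cont (hc : ∀ i, Continuous (Φ i)) : Continuous (emb Φ) :=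
  (PiLp.continuous_toLp 2 _).comp (continuous_pi fun i => (hc i).comp (continuous_apply i))

theorem emb_inj (hm : ∀ i, StrictMono (Φ i)) : Function.Injective (emb Φ) := by
  intro s t h
  funext i
  have h1 : emb Φ s i = emb Φ t i := by rw [h]
  exact (hm i).injective h1

theorem T_meas (hA : ∀ i, MeasurableSet (A i)) (j : Fin (m + 1)) : MeasurableSet (T A j) := by
  have h1 : T A j = {t | ∑ i, t i = 0} ∩ ((fun t => t j) ⁻¹' (A j)ᶜ ∩
      ⋂ i, ⋂ (_ : i ≠ j), (fun t : Fin (m + 1) → ℝ => t i) ⁻¹' A i) := by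
    ext t
    simp [T]
  rw [h1]
  refine MeasurableSet.inter ?_ (MeasurableSet.inter ?_ ?_)
  · exact measurableSet_eq_fun (by fun_prop) measurable_const
  · exact (measurable_pi_apply j) (hA j).compl
  · exact MeasurableSet.iInter fun i => MeasurableSet.iInter fun _ => (measurable_pi_apply i) (hA i)

theorem SS_meas (hc : ∀ i, Continuous (Φ i)) (hm : ∀ i, StrictMono (Φ i))
    (hA : ∀ i, MeasurableSet (A i)) (j : Fin (m + 1)) : MeasurableSet (SS Φ A j) :=
  (T_meas hA j).image_of_continuousOn_injOn (emb_cont hc).continuousOn (emb_inj hm).injOn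

theorem SS_disj (hm : ∀ i, StrictMono (Φ i)) :
    Pairwise (Function.onFun Disjoint (SS Φ A)) := by
  intro j k hjk
  rw [Function.onFun, Set.disjoint_left]
  rintro _ ⟨s, hs, rfl⟩ ⟨t, ht, h⟩
  have := emb_inj hm h
  subst this
  exact hs.2.1 (ht.2.2 j hjk)

theorem anti_sum {S : Set (E (m + 1))} (hm : ∀ i, StrictMono (Φ i))
    (hS : ∀ x ∈ S, ∃ t, ∑ i, t i = 0 ∧ emb Φ t = x) : Anti S := by
  intro x hx y hy hxy
  obtain ⟨s, hs, rfl⟩ := hS x hx
  obtain ⟨t, ht, rfl⟩ := hS y hy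
  have h1 : ∀ i ∈ Finset.univ, s i ≤ t i := fun i _ => (hm i).le_iff_le.1 (hxy i)
  have h2 := (Finset.sum_eq_sum_iff_of_le h1).1 (by rw [hs, ht])
  congr 1
  funext i
  exact h2 i (Finset.mem_univ i)

theorem cube_le (hr : ∀ i, range (Φ i) = Ioo 0 1) (j : Fin (m + 1))
    (ha : ∀ i, i ≠ j → volume (Φ i '' (A i)ᶜ) = 0)
    (hb : volume {z : Fin m → ℝ | ∃ t : Fin m → ℝ, (∀ i, z i = Φ (j.succAbove i) (t i)) ∧
      (∀ i, t i ∈ A (j.succAbove i)) ∧ -(∑ i, t i) ∈ A j} = 0) :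
    μH[(m : ℝ)] (cube m) ≤ μH[(m : ℝ)] (SS Φ A j) := by
  have hnull1 : ∀ i : Fin m, volume ((fun z : Fin m → ℝ => z i) ⁻¹'
      (Φ (j.succAbove i) '' (A (j.succAbove i))ᶜ ∪ {0, 1})) = 0 := by
    intro i
    refine (Measure.quasiMeasurePreserving_eval (fun _ : Fin m => (volume : Measure ℝ)) i).preimage_null ?_
    refine measure_union_null (ha _ (Fin.succAbove_ne j i)) ?_
    exact (Set.toFinite _).measure_zero _
  have hcov : cube m ⊆ drop j '' SS Φ A j ∪ {z : E m | z.ofLp ∈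
      ((⋃ i : Fin m, (fun z : Fin m → ℝ => z i) ⁻¹'
      (Φ (j.succAbove i) '' (A (j.succAbove i))ᶜ ∪ {0, 1})) ∪
      {z : Fin m → ℝ | ∃ t : Fin m → ℝ, (∀ i, z i = Φ (j.succAbove i) (t i)) ∧
      (∀ i, t i ∈ A (j.succAbove i)) ∧ -(∑ i, t i) ∈ A j})} := by
    intro z hz
    by_cases hN : z ∈ {z : E m | z.ofLp ∈
      ((⋃ i : Fin m, (fun z : Fin m → ℝ => z i) ⁻¹'
      (Φ (j.succAbove i) '' (A (j.succAbove i))ᶜ ∪ {0, 1})) ∪
      {z : Fin m → ℝ | ∃ t : Fin m → ℝ, (∀ i, z i = Φ (j.succAbove i) (t i)) ∧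
      (∀ i, t i ∈ A (j.succAbove i)) ∧ -(∑ i, t i) ∈ A j})}
    · exact Or.inr hN
    · left
      have hN1 : ∀ i : Fin m, z i ∉ (Φ (j.succAbove i) '' (A (j.succAbove i))ᶜ ∪ {0, 1}) := by
        intro i hi
        exact hN (Or.inl (mem_iUnion.2 ⟨i, hi⟩))
      have hN2 : ¬ ∃ t : Fin m → ℝ, (∀ i, z i = Φ (j.succAbove i) (t i)) ∧
        (∀ i, t i ∈ A (j.succAbove i)) ∧ -(∑ i, t i) ∈ A j := fun h => hN (Or.inr h)
      have h1 : ∀ i : Fin m, ∃ t ∈ A (j.succAbove i), Φ (j.succAbove i) t = z i := by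
        intro i
        have h2 : z i ∈ Ioo (0 : ℝ) 1 := by
          have h3 := hz i
          have h4 := hN1 i
          simp only [mem_union, mem_insert_iff, mem_singleton_iff, not_or] at h4
          exact ⟨lt_of_le_of_ne h3.1 (Ne.symm h4.2.1), lt_of_le_of_ne h3.2 h4.2.2⟩
        rw [← hr (j.succAbove i)] at h2
        obtain ⟨t, ht⟩ := h2
        refine ⟨t, ?_, ht⟩
        by_contra hcon
        exact hN1 i (Or.inl ⟨t, hcon, ht⟩)
      choose t htA ht using h1
      refine ⟨emb Φ (Fin.insertNth (α := fun _ => ℝ) j (-(∑ i, t i)) t), ⟨_, ⟨?_, ?_, ?_⟩, rfl⟩, ?_⟩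
      · rw [Fin.sum_univ_succAbove _ j]
        simp
      · rw [Fin.insertNth_apply_same]
        intro hcon
        exact hN2 ⟨t, fun i => (ht i).symm, htA, hcon⟩
      · intro i hi
        rcases Fin.eq_self_or_eq_succAbove j i with h | ⟨k, rfl⟩
        · exact absurd h hi
        · rw [Fin.insertNth_apply_succAbove]
          exact htA k
      · ext i
        rw [drop_apply]
        change Φ (j.succAbove i) (Fin.insertNth (α := fun _ => ℝ) j (-(∑ i, t i)) t (j.succAbove i)) = z i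
        rw [Fin.insertNth_apply_succAbove, ht]
  calc μH[(m : ℝ)] (cube m) ≤ _ := measure_mono hcov
    _ ≤ μH[(m : ℝ)] (drop j '' SS Φ A j) + 0 := by
        refine (measure_union_le _ _).trans (add_le_add le_rfl (le_of_eq ?_))
        refine null_of (measure_union_null ?_ hb)
        exact measure_iUnion_null hnull1
    _ ≤ μH[(m : ℝ)] (SS Φ A j) := by
        rw [add_zero]
        have := (drop_lip j).hausdorffMeasure_image_le (Nat.cast_nonneg (α := ℝ) m) (SS Φ A j)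
        simpa using this

theorem union_ge (hc : ∀ i, Continuous (Φ i)) (hm : ∀ i, StrictMono (Φ i))
    (hA : ∀ i, MeasurableSet (A i))
    (h : ∀ j, μH[(m : ℝ)] (cube m) ≤ μH[(m : ℝ)] (SS Φ A j)) :
    ((m + 1 : ℕ) : ENNReal) * μH[(m : ℝ)] (cube m) ≤ μH[(m : ℝ)] (⋃ j, SS Φ A j) := by
  rw [measure_iUnion (SS_disj hm) (fun j => SS_meas hc hm hA j), tsum_fintype]
  calc ((m + 1 : ℕ) : ENNReal) * μH[(m : ℝ)] (cube m) = ∑ _j : Fin (m + 1), μH[(m : ℝ)] (cube m) := by
        simp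
    _ ≤ _ := Finset.sum_le_sum fun j _ => h j

end

theorem fub {k : ℕ} (Φ : Fin (k + 1) → ℝ → ℝ) (hc : ∀ i, Continuous (Φ i))
    (hm : ∀ i, StrictMono (Φ i)) (hd : Differentiable ℝ (Φ 0)) {A : Set ℝ} (hA : MeasurableSet A)
    (hA0 : volume A = 0) :
    volume {z : Fin (k + 1) → ℝ | ∃ t : Fin (k + 1) → ℝ, (∀ i, z i = Φ i (t i)) ∧
      -(∑ i, t i) ∈ A} = 0 := by
  set N : Set (Fin (k + 1) → ℝ) := {z : Fin (k + 1) → ℝ | ∃ t : Fin (k + 1) → ℝ,
    (∀ i, z i = Φ i (t i)) ∧ -(∑ i, t i) ∈ A} with hN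
  have hNm : MeasurableSet N := by
    have h1 : N = (fun t : Fin (k + 1) → ℝ => (fun i => Φ i (t i))) ''
        ((fun t : Fin (k + 1) → ℝ => -(∑ i, t i)) ⁻¹' A) := by
      ext z
      constructor
      · rintro ⟨t, ht, htA⟩
        exact ⟨t, htA, (funext ht).symm⟩
      · rintro ⟨t, htA, rfl⟩
        exact ⟨t, fun i => rfl, htA⟩
    rw [h1]
    refine MeasurableSet.image_of_continuousOn_injOn ?_ ?_ ?_
    · exact (by fun_prop : Measurable (fun t : Fin (k + 1) → ℝ => -(∑ i, t i))) hA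
    · exact (continuous_pi fun i => (hc i).comp (continuous_apply i)).continuousOn
    · intro s _ t _ h
      funext i
      exact (hm i).injective (congrFun h i)
  let e := MeasurableEquiv.piFinSuccAbove (fun _ : Fin (k + 1) => ℝ) 0
  have hmp : MeasurePreserving e volume volume :=
    volume_preserving_piFinSuccAbove (fun _ : Fin (k + 1) => ℝ) 0
  have h2 : volume N = volume (e.symm ⁻¹' N) := by
    rw [(hmp.symm e).measure_preimage_equiv]
  rw [h2]
  have hm2 : MeasurableSet (e.symm ⁻¹' N) := e.symm.measurable hNm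
  rw [Measure.volume_eq_prod, Measure.prod_apply_symm hm2]
  rw [lintegral_eq_zero_iff (measurable_measure_prodMk_right hm2)]
  refine Eventually.of_forall fun w => ?_
  simp only [Pi.zero_apply]
  by_cases hw : ∃ t : Fin k → ℝ, ∀ i, w i = Φ i.succ (t i)
  · obtain ⟨t, ht⟩ := hw
    have hsub : (fun x => (x, w)) ⁻¹' (e.symm ⁻¹' N) ⊆ Φ 0 '' {s | -(s + ∑ i, t i) ∈ A} := by
      rintro x ⟨s, hs, hsA⟩
      have h0 : x = Φ 0 (s 0) := by
        have := hs 0
        simpa [e, MeasurableEquiv.piFinSuccAbove] using this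
      have h1 : ∀ i : Fin k, s i.succ = t i := by
        intro i
        have h3 := hs i.succ
        have h4 : w i = Φ i.succ (s i.succ) := by
          simpa [e, MeasurableEquiv.piFinSuccAbove] using h3
        rw [ht i] at h4
        exact ((hm i.succ).injective h4).symm
      refine ⟨s 0, ?_, h0.symm⟩
      rw [Fin.sum_univ_succ] at hsA
      simp only [h1] at hsA
      exact hsA
    refine measure_mono_null hsub ?_
    refine addHaar_image_eq_zero_of_differentiableOn_of_addHaar_eq_zero volume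
      (hd.differentiableOn) ?_
    have h3 : {s : ℝ | -(s + ∑ i, t i) ∈ A} = (fun s => s + ∑ i, t i) ⁻¹' ((fun s => -s) ⁻¹' A) := rfl
    rw [h3, measure_preimage_add_right]
    have h4 : (fun s : ℝ => -s) ⁻¹' A = -A := rfl
    rw [h4, Measure.measure_neg]
    exact hA0
  · convert measure_empty (μ := (volume : Measure ℝ))
    rw [eq_empty_iff_forall_notMem]
    rintro x ⟨s, hs, hsA⟩
    apply hw
    refine ⟨fun i => s i.succ, fun i => ?_⟩
    have h3 := hs i.succ
    simpa [e, MeasurableEquiv.piFinSuccAbove] using h3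

end Pool.Agent.Q204.ACH
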