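import Mathlib

open MeasureTheory Set Filter Topology

namespace Pool.Agent.Q204.ACH

/-- Sums with digits at most `r` in base `1/c`. -/
def DD (c : ℝ) (r : ℕ) : Set ℝ :=
  Set.range (fun d : ℕ → Fin (r + 1) => ∑' k, ((d k : ℕ) : ℝ) * c ^ k)

theorem term_bound {c : ℝ} (hc : 0 ≤ c) {r : ℕ} (d : ℕ → Fin (r + 1)) (k : ℕ) :
    ‖((d k : ℕ) : ℝ) * c ^ k‖ ≤ (r : ℝ) * c ^ k := by
  rw [norm_mul, Real.norm_natCast, Real.norm_of_nonneg (by positivity)]
  refine mul_le_mul_of_nonneg_right ?_ (by positivity)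
  exact_mod_cast Nat.lt_succ_iff.1 (d k).2

theorem summ {c : ℝ} (hc : 0 ≤ c) (hc1 : c < 1) {r : ℕ} (d : ℕ → Fin (r + 1)) :
    Summable (fun k => ((d k : ℕ) : ℝ) * c ^ k) :=
  Summable.of_norm_bounded ((summable_geometric_of_lt_one hc hc1).mul_left (r : ℝ))
    (term_bound hc d)

theorem DD_compact {c : ℝ} (hc : 0 ≤ c) (hc1 : c < 1) (r : ℕ) : IsCompact (DD c r) := by
  refine isCompact_range (continuous_tsum (u := fun k => (r : ℝ) * c ^ k) ?_
    ((summable_geometric_of_lt_one hc hc1).mul_left (r : ℝ)) ?_)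
  · intro k
    refine Continuous.mul ?_ continuous_const
    exact (continuous_of_discreteTopology (f := fun x : Fin (r + 1) => ((x : ℕ) : ℝ))).comp
      (continuous_apply k)
  · intro k d
    exact term_bound hc d k

theorem DD_null {c : ℝ} (hc : 0 < c) (r : ℕ) (hr : c * (r + 1) < 1) : volume (DD c r) = 0 := by
  have hc1 : c < 1 := by
    have : (0 : ℝ) ≤ r := Nat.cast_nonneg r
    nlinarith
  have hsub : DD c r ⊆ ⋃ a : Fin (r + 1), (fun y => c⁻¹ * y) ⁻¹'
      ((fun y => y + -(c⁻¹ * ((a : ℕ) : ℝ))) ⁻¹' DD c r) := by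
    rintro _ ⟨d, rfl⟩
    refine mem_iUnion.2 ⟨d 0, ?_⟩
    refine ⟨fun k => d (k + 1), ?_⟩
    simp only
    have h1 := (summ hc.le hc1 d).tsum_eq_zero_add
    have h2 : ∑' k, ((d (k + 1) : ℕ) : ℝ) * c ^ (k + 1)
        = c * ∑' k, ((d (k + 1) : ℕ) : ℝ) * c ^ k := by
      rw [← tsum_mul_left]
      congr 1
      ext k
      ring
    rw [h1, h2]
    field_simp
    ring
  have hfin : volume (DD c r) ≠ ⊤ := (DD_compact hc.le hc1 r).measure_lt_top.ne
  have h1 : volume (DD c r) ≤ ENNReal.ofReal (c * (r + 1)) * volume (DD c r) := by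
    calc volume (DD c r) ≤ _ := measure_mono hsub
      _ ≤ ∑' a : Fin (r + 1), volume ((fun y => c⁻¹ * y) ⁻¹'
          ((fun y => y + -(c⁻¹ * ((a : ℕ) : ℝ))) ⁻¹' DD c r)) := measure_iUnion_le _
      _ = ∑' _a : Fin (r + 1), ENNReal.ofReal c * volume (DD c r) := by
          congr 1
          ext a
          rw [Real.volume_preimage_mul_left (inv_ne_zero hc.ne'), inv_inv, abs_of_pos hc,
            measure_preimage_add_right]
      _ = ENNReal.ofReal (c * (r + 1)) * volume (DD c r) := by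
          rw [tsum_fintype, Finset.sum_const, Finset.card_univ, Fintype.card_fin, nsmul_eq_mul,
            ENNReal.ofReal_mul hc.le, ← mul_assoc]
          congr 1
          rw [mul_comm]
          congr 1
          rw [show ((r : ℝ) + 1) = ((r + 1 : ℕ) : ℝ) by push_cast; ring, ENNReal.ofReal_natCast]
  by_contra hne
  have h2 : ENNReal.ofReal (c * (r + 1)) * volume (DD c r) < 1 * volume (DD c r) := by
    refine ENNReal.mul_lt_mul_left hne hfin ?_
    rw [← ENNReal.ofReal_one]
    exact (ENNReal.ofReal_lt_ofReal_iff one_pos).2 hr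
  rw [one_mul] at h2
  exact absurd h1 (not_le.2 h2)

theorem DD_uncountable {c : ℝ} (hc : 0 < c) (hc2 : c < 1 / 2) : ¬ Countable (DD c 1) := by
  intro hcount
  have hunc : Uncountable (ℕ → Bool) := by
    rw [← Cardinal.aleph0_lt_mk_iff]; simp [Cardinal.aleph0_lt_continuum]
  have hmem : ∀ f : ℕ → Bool, Cardinal.cantorFunction c f ∈ DD c 1 := by
    intro f
    refine ⟨fun k => if f k then 1 else 0, ?_⟩
    simp only [Cardinal.cantorFunction]
    congr 1
    ext k
    by_cases h : f k = true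
    · rw [Cardinal.cantorFunctionAux_true h]; simp [h]
    · rw [Bool.not_eq_true] at h
      rw [Cardinal.cantorFunctionAux_false h]; simp [h]
  have hinj : Function.Injective (fun f : ℕ → Bool => (⟨_, hmem f⟩ : DD c 1)) := by
    intro f g h
    exact Cardinal.cantorFunction_injective hc hc2 (congrArg Subtype.val h)
  exact (not_countable_iff.2 hunc) hinj.countable

/-- A probability measure without atoms carried by an uncountable Borel set. -/
theorem exists_nu (D : Set ℝ) (hD : MeasurableSet D) (hunc : ¬ Countable D) :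
    ∃ ν : Measure ℝ, IsProbabilityMeasure ν ∧ (∀ x, ν {x} = 0) ∧ ν Dᶜ = 0 := by
  have : StandardBorelSpace D := hD.standardBorel
  have hR : ¬ Countable ℝ := not_countable_iff.2 inferInstance
  let e : ℝ ≃ᵐ D := PolishSpace.measurableEquivOfNotCountable hR hunc
  let ψ : ℝ → ℝ := fun x => ((e x : D) : ℝ)
  have hψ : Measurable ψ := measurable_subtype_coe.comp e.measurable
  have hinj : Function.Injective ψ := Subtype.val_injective.comp e.injective
  have : IsProbabilityMeasure (volume.restrict (Icc (0 : ℝ) 1)) :=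
    ⟨by rw [Measure.restrict_apply_univ, Real.volume_Icc]; simp⟩
  refine ⟨(volume.restrict (Icc (0 : ℝ) 1)).map ψ, Measure.isProbabilityMeasure_map hψ.aemeasurable,
    ?_, ?_⟩
  · intro x
    rw [Measure.map_apply hψ (measurableSet_singleton x)]
    have hsub : (ψ ⁻¹' {x}).Subsingleton := by
      intro a ha b hb
      exact hinj ((mem_singleton_iff.1 ha).trans (mem_singleton_iff.1 hb).symm)
    have h0 : volume (ψ ⁻¹' {x}) = 0 := hsub.measure_zero volume
    exact le_antisymm ((Measure.restrict_apply_le _ _).trans h0.le) bot_le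
  · rw [Measure.map_apply hψ hD.compl]
    have : ψ ⁻¹' Dᶜ = ∅ := by
      ext x
      simp only [mem_preimage, mem_compl_iff, mem_empty_iff_false, iff_false, not_not]
      exact (e x).2
    rw [this, measure_empty]

/-- Translates by all rationals. -/
theorem exists_mu (D : Set ℝ) (hD : MeasurableSet D) (hunc : ¬ Countable D) :
    ∃ μ : Measure ℝ, IsProbabilityMeasure μ ∧ (∀ x, μ {x} = 0) ∧
      μ (⋃ q : ℚ, (fun x => x + (q : ℝ)) '' D)ᶜ = 0 ∧ ∀ a b : ℝ, a < b → μ (Ioo a b) ≠ 0 := by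
  obtain ⟨ν, hν, hν0, hνD⟩ := exists_nu D hD hunc
  let q : ℕ → ℚ := fun k => (Denumerable.eqv ℚ).symm k
  let μ : Measure ℝ := Measure.sum fun k : ℕ => ((2 : ENNReal)⁻¹ ^ (k + 1)) •
    ν.map (fun x => x + (q k : ℝ))
  have hmeas : ∀ k, Measurable fun x : ℝ => x + (q k : ℝ) := fun k => measurable_id.add_const _
  have hval : ∀ s, MeasurableSet s → μ s = ∑' k : ℕ, (2 : ENNReal)⁻¹ ^ (k + 1) *
      ν ((fun x => x + (q k : ℝ)) ⁻¹' s) := by
    intro s hs
    rw [Measure.sum_apply _ hs]
    congr 1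
    ext k
    rw [Measure.smul_apply, Measure.map_apply (hmeas k) hs, smul_eq_mul]
  have htr : MeasurableSet (⋃ q : ℚ, (fun x => x + (q : ℝ)) '' D) := by
    refine MeasurableSet.iUnion fun q => ?_
    rw [image_add_right]
    exact (measurable_id.add_const _) hD
  refine ⟨μ, ⟨?_⟩, ?_, ?_, ?_⟩
  · rw [hval _ MeasurableSet.univ]
    simp only [preimage_univ, measure_univ, mul_one]
    rw [ENNReal.tsum_geometric_add_one, ENNReal.one_sub_inv_two, inv_inv,
      ENNReal.inv_mul_cancel (by norm_num) (by norm_num)]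
  · intro x
    rw [hval _ (measurableSet_singleton x), ENNReal.tsum_eq_zero]
    intro k
    have : (fun y => y + (q k : ℝ)) ⁻¹' {x} = {x - q k} := by
      ext y
      simp only [mem_preimage, mem_singleton_iff]
      constructor <;> intro h <;> linarith
    rw [this, hν0, mul_zero]
  · rw [hval _ htr.compl, ENNReal.tsum_eq_zero]
    intro k
    have : (fun y => y + (q k : ℝ)) ⁻¹' (⋃ q : ℚ, (fun x => x + (q : ℝ)) '' D)ᶜ ⊆ Dᶜ := by
      intro y hy hyD
      apply hy
      exact mem_iUnion.2 ⟨q k, y, hyD, rfl⟩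
    rw [measure_mono_null this hνD, mul_zero]
  · intro a b hab h0
    obtain ⟨c0, -, hc0⟩ := exists_mem_forall_mem_nhdsWithin_pos_measure (μ := ν) (s := univ)
      (by rw [measure_univ]; exact one_ne_zero)
    obtain ⟨r, hr1, hr2⟩ := exists_rat_btwn (show a - c0 < b - c0 by linarith)
    obtain ⟨k, hk⟩ : ∃ k, q k = r := (Denumerable.eqv ℚ).symm.surjective r
    rw [hval _ measurableSet_Ioo, ENNReal.tsum_eq_zero] at h0
    have h1 := h0 k
    rw [mul_eq_zero] at h1
    rcases h1 with h1 | h1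
    · exact (pow_ne_zero (k + 1) (ENNReal.inv_ne_zero.2 (by norm_num))) h1
    · have h2 := hc0 ((fun x => x + (q k : ℝ)) ⁻¹' Ioo a b) (by
        rw [nhdsWithin_univ]
        refine (isOpen_Ioo.preimage (by fun_prop)).mem_nhds ?_
        simp only [mem_preimage, mem_Ioo, hk]
        constructor <;> linarith)
      exact h2.ne' h1

theorem continuous_cdf (μ : Measure ℝ) [IsProbabilityMeasure μ] (h0 : ∀ x, μ {x} = 0) :
    Continuous (ProbabilityTheory.cdf μ) := by
  set f := ProbabilityTheory.cdf μ with hf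
  have hfm : f.measure = μ := ProbabilityTheory.measure_cdf μ
  have hmono : Monotone f := f.mono
  rw [continuous_iff_continuousAt]
  intro a
  rw [hmono.continuousAt_iff_leftLim_eq_rightLim]
  have h1 : f.measure {a} = 0 := by rw [hfm]; exact h0 a
  rw [StieltjesFunction.measure_singleton, ENNReal.ofReal_eq_zero] at h1
  have h2 : Function.leftLim f a ≤ f a := hmono.leftLim_le le_rfl
  rw [f.rightLim_eq]
  linarith

/-- Strictly increasing continuous distribution function. -/
theorem exists_F (A : Set ℝ) (hA : MeasurableSet A) (μ : Measure ℝ) [IsProbabilityMeasure μ]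
    (h0 : ∀ x, μ {x} = 0) (hμA : μ Aᶜ = 0) (hpos : ∀ a b : ℝ, a < b → μ (Ioo a b) ≠ 0) :
    ∃ F : ℝ → ℝ, Continuous F ∧ StrictMono F ∧ range F = Ioo 0 1 ∧ volume (F '' Aᶜ) = 0 := by
  set f := ProbabilityTheory.cdf μ with hf
  have hfm : f.measure = μ := ProbabilityTheory.measure_cdf μ
  have hstrict : StrictMono f := by
    intro a b hab
    have h1 : f.measure (Ioc a b) ≠ 0 := by
      rw [hfm]
      intro h
      exact hpos a b hab (measure_mono_null Ioo_subset_Ioc_self h)
    rw [StieltjesFunction.measure_Ioc] at h1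
    by_contra hcon
    exact h1 (ENNReal.ofReal_eq_zero.2 (by linarith [not_lt.1 hcon]))
  have hcont : Continuous f := continuous_cdf μ h0
  have hrange : range f = Ioo 0 1 := by
    ext u
    constructor
    · rintro ⟨t, rfl⟩
      exact ⟨lt_of_le_of_lt (ProbabilityTheory.cdf_nonneg μ (t - 1)) (hstrict (by linarith)),
        lt_of_lt_of_le (hstrict (show t < t + 1 by linarith)) (ProbabilityTheory.cdf_le_one μ _)⟩
    · rintro ⟨hu0, hu1⟩
      have h1 := (ProbabilityTheory.tendsto_cdf_atBot μ).eventually (eventually_lt_nhds hu0)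
      have h2 := (ProbabilityTheory.tendsto_cdf_atTop μ).eventually (eventually_gt_nhds hu1)
      obtain ⟨a, ha⟩ := h1.exists
      obtain ⟨b, hb⟩ := h2.exists
      exact mem_range_of_exists_le_of_exists_ge hcont ⟨a, ha.le⟩ ⟨b, hb.le⟩
  refine ⟨f, hcont, hstrict, hrange, ?_⟩
  have hmeas : Measurable f := hcont.measurable
  have hmap : μ.map f = volume.restrict (Ioo 0 1) := by
    refine Measure.ext_of_Iic _ _ fun u => ?_
    rw [Measure.map_apply hmeas measurableSet_Iic, Measure.restrict_apply measurableSet_Iic]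
    rcases le_or_gt u 0 with hu | hu
    · have e1 : f ⁻¹' Iic u = ∅ := by
        ext t
        simp only [mem_preimage, mem_Iic, mem_empty_iff_false, iff_false, not_le]
        have : f t ∈ Ioo (0 : ℝ) 1 := hrange ▸ mem_range_self t
        exact lt_of_le_of_lt hu this.1
      have e2 : Iic u ∩ Ioo (0 : ℝ) 1 = ∅ := by
        ext t
        simp only [mem_inter_iff, mem_Iic, mem_Ioo, mem_empty_iff_false, iff_false]
        rintro ⟨h1, h2, -⟩
        linarith
      rw [e1, e2, measure_empty, measure_empty]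
    rcases le_or_gt 1 u with hu1 | hu1
    · have e1 : f ⁻¹' Iic u = univ := by
        ext t
        simp only [mem_preimage, mem_Iic, mem_univ, iff_true]
        have : f t ∈ Ioo (0 : ℝ) 1 := hrange ▸ mem_range_self t
        exact this.2.le.trans hu1
      have e2 : Iic u ∩ Ioo (0 : ℝ) 1 = Ioo 0 1 := by
        ext t
        simp only [mem_inter_iff, mem_Iic, mem_Ioo]
        constructor
        · rintro ⟨-, h⟩; exact h
        · rintro h; exact ⟨h.2.le.trans hu1, h⟩
      rw [e1, e2, measure_univ, Real.volume_Ioo]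
      simp
    · obtain ⟨s, hs⟩ : u ∈ range f := by rw [hrange]; exact ⟨hu, hu1⟩
      have e1 : f ⁻¹' Iic u = Iic s := by
        ext t
        simp only [mem_preimage, mem_Iic, ← hs]
        exact hstrict.le_iff_le
      have e2 : Iic u ∩ Ioo (0 : ℝ) 1 = Ioc 0 u := by
        ext t
        simp only [mem_inter_iff, mem_Iic, mem_Ioo, mem_Ioc]
        constructor
        · rintro ⟨h1, h2, -⟩; exact ⟨h2, h1⟩
        · rintro ⟨h1, h2⟩; exact ⟨h2, h1, lt_of_le_of_lt h2 hu1⟩
      rw [e1, e2, Real.volume_Ioc, sub_zero, ← hs, hf, ProbabilityTheory.ofReal_cdf]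
  have himg : MeasurableSet (f '' Aᶜ) :=
    hA.compl.image_of_continuousOn_injOn hcont.continuousOn hstrict.injective.injOn
  have hsub : f '' Aᶜ ⊆ Ioo 0 1 := by
    rw [← hrange]; exact image_subset_range _ _
  calc volume (f '' Aᶜ) = volume.restrict (Ioo 0 1) (f '' Aᶜ) := by
        rw [Measure.restrict_apply himg, inter_eq_left.2 hsub]
    _ = μ.map f (f '' Aᶜ) := by rw [hmap]
    _ = μ Aᶜ := by
        rw [Measure.map_apply hmeas himg, preimage_image_eq _ hstrict.injective]
    _ = 0 := hμA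

/-- Cutting a finite measure without atoms. -/
theorem cut (ρ : Measure ℝ) [IsFiniteMeasure ρ] (h0 : ∀ x, ρ {x} = 0) (h1 : ρ (Iic (-1)) = 0)
    (h2 : ρ (Iic 1) = ρ univ) (c : ENNReal) (hc : c ≤ ρ univ) : ∃ t, ρ (Iic t) = c := by
  by_cases hz : ρ univ = 0
  · refine ⟨1, ?_⟩
    rw [h2, hz]
    rw [hz] at hc
    exact (le_antisymm hc bot_le).symm
  have hfin : ρ univ ≠ ⊤ := measure_ne_top _ _
  let p : Measure ℝ := (ρ univ)⁻¹ • ρ
  have hp : IsProbabilityMeasure p := ⟨by
    rw [Measure.smul_apply, smul_eq_mul, ENNReal.inv_mul_cancel hz hfin]⟩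
  have hp0 : ∀ x, p {x} = 0 := fun x => by
    rw [Measure.smul_apply, h0, smul_zero]
  have hcont := continuous_cdf p hp0
  have hcdf : ∀ t, ProbabilityTheory.cdf p t = ((ρ univ)⁻¹ * ρ (Iic t)).toReal := fun t => by
    rw [ProbabilityTheory.cdf_eq_real, Measure.real, Measure.smul_apply, smul_eq_mul]
  have hcu : (ρ univ)⁻¹ * c ≤ 1 := by
    calc (ρ univ)⁻¹ * c ≤ (ρ univ)⁻¹ * ρ univ := mul_le_mul_right hc _
      _ = 1 := ENNReal.inv_mul_cancel hz hfin
  obtain ⟨t, ht⟩ : ((ρ univ)⁻¹ * c).toReal ∈ range (ProbabilityTheory.cdf p) := by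
    refine mem_range_of_exists_le_of_exists_ge hcont ⟨-1, ?_⟩ ⟨1, ?_⟩
    · rw [hcdf, h1, mul_zero, ENNReal.toReal_zero]; exact ENNReal.toReal_nonneg
    · rw [hcdf, h2, ENNReal.inv_mul_cancel hz hfin]
      exact ENNReal.toReal_mono ENNReal.one_ne_top hcu
  refine ⟨t, ?_⟩
  rw [hcdf] at ht
  have e1 : (ρ univ)⁻¹ * ρ (Iic t) = (ρ univ)⁻¹ * c := by
    refine (ENNReal.toReal_eq_toReal_iff' ?_ ?_).1 ht
    · exact ENNReal.mul_ne_top (ENNReal.inv_ne_top.2 hz) (measure_ne_top _ _)
    · exact ne_top_of_le_ne_top ENNReal.one_ne_top hcu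
  have e2 := congrArg (fun s => ρ univ * s) e1
  simp only [← mul_assoc, ENNReal.mul_inv_cancel hz hfin, one_mul] at e2
  exact e2

theorem exists_singular (m : ℕ) : ∃ (A B : Set ℝ) (F : ℝ → ℝ), MeasurableSet A ∧
    MeasurableSet B ∧ volume A = 0 ∧ volume B = 0 ∧ Continuous F ∧ StrictMono F ∧
    range F = Ioo 0 1 ∧ volume (F '' Aᶜ) = 0 ∧
    ∀ t : Fin m → ℝ, (∀ i, t i ∈ A) → -(∑ i, t i) ∈ B := by
  set c : ℝ := 1 / (m + 3) with hc
  have hcpos : 0 < c := by positivity
  have hc2 : c < 1 / 2 := by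
    rw [hc]
    exact one_div_lt_one_div_of_lt (by norm_num) (by linarith [Nat.cast_nonneg (α := ℝ) m])
  have hc1 : c < 1 := by linarith
  have hr1 : c * ((1 : ℕ) + 1) < 1 := by push_cast; linarith
  have hrm : c * ((m : ℕ) + 1) < 1 := by
    rw [hc, div_mul_eq_mul_div, div_lt_one (by positivity)]; linarith
  set D := DD c 1 with hD
  have hDm : MeasurableSet D := (DD_compact hcpos.le hc1 1).measurableSet
  obtain ⟨μ, hμ, hμ0, hμA, hμpos⟩ := exists_mu D hDm (DD_uncountable hcpos hc2)
  set A : Set ℝ := ⋃ q : ℚ, (fun x => x + (q : ℝ)) '' D with hA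
  have hAm : MeasurableSet A := by
    refine MeasurableSet.iUnion fun q => ?_
    rw [image_add_right]
    exact (measurable_id.add_const _) hDm
  obtain ⟨F, hF1, hF2, hF3, hF4⟩ := exists_F A hAm μ hμ0 hμA hμpos
  refine ⟨A, ⋃ q : ℚ, (fun x => -x) '' ((fun x => x + (q : ℝ)) '' (DD c m)), F, hAm, ?_, ?_, ?_,
    hF1, hF2, hF3, hF4, ?_⟩
  · refine MeasurableSet.iUnion fun q => ?_
    rw [image_add_right, image_neg_eq_neg]
    exact measurable_neg ((measurable_id.add_const _)
      (DD_compact hcpos.le hc1 m).measurableSet)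
  · rw [hA, measure_iUnion_null_iff]
    intro q
    rw [image_add_right, measure_preimage_add_right]
    exact DD_null hcpos 1 hr1
  · rw [measure_iUnion_null_iff]
    intro q
    rw [image_add_right, image_neg_eq_neg, Measure.measure_neg, measure_preimage_add_right]
    exact DD_null hcpos m hrm
  · intro t ht
    have h1 : ∀ i, ∃ (q : ℚ) (d : ℕ → Fin 2), t i = (∑' k, ((d k : ℕ) : ℝ) * c ^ k) + q := by
      intro i
      obtain ⟨q, x, ⟨d, rfl⟩, hx⟩ := mem_iUnion.1 (ht i)
      exact ⟨q, d, hx.symm⟩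
    choose q d hqd using h1
    refine mem_iUnion.2 ⟨∑ i, q i, ∑ i, t i, ⟨∑ i, ∑' k, ((d i k : ℕ) : ℝ) * c ^ k, ?_, ?_⟩, rfl⟩
    · refine ⟨fun k => ⟨∑ i, (d i k : ℕ), ?_⟩, ?_⟩
      · have : ∑ i, (d i k : ℕ) ≤ ∑ _i : Fin m, 1 :=
          Finset.sum_le_sum fun i _ => Nat.lt_succ_iff.1 (d i k).2
        simp only [Finset.sum_const, Finset.card_univ, Fintype.card_fin, smul_eq_mul, mul_one]
          at this
        omega
      · simp only
        rw [← Summable.tsum_finsetSum (fun i _ => summ hcpos.le hc1 (d i))]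
        congr 1
        ext k
        push_cast
        rw [Finset.sum_mul]
    · simp only
      push_cast
      rw [← Finset.sum_add_distrib]
      exact Finset.sum_congr rfl fun i _ => (hqd i).symm

end Pool.Agent.Q204.ACH
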